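import Pool.Agent.Helper9.LS5.SheetN
import Pool.Agent.Helper9.MTK.IndK

/-!
Project LS5, row MODQ: sparse quotients of polynomial height.
-/

set_option autoImplicit false

open Filter NumberField Finset

namespace Pool.Agent.Helper9.LS5

open Pool.Agent.Helper71.JN Pool.Agent.Helper70.SUB Pool.Agent.Helper77.SUBK
  Pool.Agent.Helper70.SUBW Pool.Agent.Helper9.MTK Height

/-- an intermediate scale -/
theorem scale_ex {φ : Ultrafilter ℕ} {X : ℕ → ℝ} (hX : Tendsto X (φ : Filter ℕ) atTop) {ι : Type}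
    (s : Finset ι) (H : ι → ℕ → ℝ)
    (hH : ∀ i ∈ s, ∀ A : ℝ, ∀ᶠ j in (φ : Filter ℕ), X j ^ A ≤ H i j) :
    ∃ Y : ℕ → ℝ, Tendsto Y (φ : Filter ℕ) atTop ∧
      (∀ A ε : ℝ, 0 < ε → ∀ᶠ j in (φ : Filter ℕ), X j ^ A ≤ Y j ^ ε) ∧
      ∀ i ∈ s, ∀ᶠ j in (φ : Filter ℕ), Y j ≤ H i j := by
  classical
  obtain ⟨L, hL⟩ : ∃ L : ℕ → ℝ, L = fun j => Real.log (X j) := ⟨_, rfl⟩
  have hLt : Tendsto L (φ : Filter ℕ) atTop := by
    rw [hL]; exact Real.tendsto_log_atTop.comp hX
  obtain ⟨m, hm⟩ : ∃ m : ℕ → ℝ, m = fun j => s.fold min (Real.exp (L j ^ 2)) (fun i => H i j) :=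
    ⟨_, rfl⟩
  have hmle : ∀ i ∈ s, ∀ j, m j ≤ H i j := by
    intro i hi j
    rw [hm]
    exact (Finset.fold_min_le _).2 (Or.inr ⟨i, hi, le_rfl⟩)
  have hmge : ∀ A : ℝ, ∀ᶠ j in (φ : Filter ℕ), X j ^ A ≤ m j := by
    intro A
    have h1 : ∀ᶠ j in (φ : Filter ℕ), ∀ i ∈ s, X j ^ A ≤ H i j :=
      (Filter.eventually_all_finset s).2 fun i hi => hH i hi A
    filter_upwards [h1, hLt.eventually_ge_atTop (max A 0), hX.eventually_gt_atTop 0] with j h1 h2 h3
    rw [hm]
    refine (Finset.le_fold_min _).2 ⟨?_, fun i hi => h1 i hi⟩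
    rw [Real.rpow_def_of_pos h3]
    refine Real.exp_le_exp.2 ?_
    have h4 : Real.log (X j) = L j := by rw [hL]
    rw [h4]
    have h5 : A ≤ L j := (le_max_left _ _).trans h2
    have h6 : 0 ≤ L j := (le_max_right _ _).trans h2
    nlinarith
  have hlm : ∀ A : ℝ, ∀ᶠ j in (φ : Filter ℕ), A * L j ≤ Real.log (m j) := by
    intro A
    filter_upwards [hmge A, hX.eventually_gt_atTop 0] with j h1 h2
    have h3 := Real.log_le_log (Real.rpow_pos_of_pos h2 A) h1
    rw [Real.log_rpow h2] at h3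
    rw [hL]
    exact h3
  have hmpos : ∀ᶠ j in (φ : Filter ℕ), 0 < m j := by
    filter_upwards [hmge 1, hX.eventually_gt_atTop 0] with j h1 h2
    rw [Real.rpow_one] at h1
    linarith
  refine ⟨fun j => Real.exp (Real.sqrt (Real.log (m j) * L j)), ?_, ?_, ?_⟩
  · refine tendsto_atTop_mono' _ ?_ hX
    filter_upwards [hlm 1, hX.eventually_gt_atTop 0, hLt.eventually_ge_atTop 0] with j h1 h2 h3
    have h4 : L j = Real.log (X j) := by rw [hL]
    calc X j = Real.exp (Real.log (X j)) := (Real.exp_log h2).symm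
      _ ≤ _ := by
        refine Real.exp_le_exp.2 ?_
        rw [← h4]
        refine Real.le_sqrt_of_sq_le ?_
        nlinarith
  · intro A ε hε
    filter_upwards [hlm ((A / ε) ^ 2), hX.eventually_gt_atTop 0, hLt.eventually_ge_atTop 0]
      with j h1 h2 h3
    have h4 : L j = Real.log (X j) := by rw [hL]
    rw [Real.rpow_def_of_pos h2, ← Real.exp_mul, ← h4]
    refine Real.exp_le_exp.2 ?_
    have h5 : A / ε * L j ≤ Real.sqrt (Real.log (m j) * L j) := by
      refine Real.le_sqrt_of_sq_le ?_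
      nlinarith
    calc L j * A = (A / ε * L j) * ε := by field_simp
      _ ≤ _ := mul_le_mul_of_nonneg_right h5 hε.le
  · intro i hi
    filter_upwards [hlm 1, hmpos, hLt.eventually_ge_atTop 0] with j h1 h2 h3
    refine le_trans ?_ (hmle i hi j)
    calc Real.exp (Real.sqrt (Real.log (m j) * L j)) ≤ Real.exp (Real.log (m j)) := by
          refine Real.exp_le_exp.2 (Real.sqrt_le_iff.2 ⟨by linarith, ?_⟩)
          nlinarith
      _ = m j := Real.exp_log h2

section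

variable {M : Type} [Field M] [NumberField M] [IsGalois ℚ M] {S : Finset ℕ} {P : PF S M}
  {φ : Ultrafilter ℕ}

theorem spM_fsum (hSPW : ST_SPW) (hS : ∀ p ∈ S, p.Prime) {X : ℕ → ℝ}
    (hX : Tendsto X (φ : Filter ℕ) atTop) {ι : Type} [Fintype ι] (f : ι → ℕ → M)
    (hf : ∀ i, SpM P φ X (f i)) : SpM P φ X (fun j => ∑ i, f i j) := by
  obtain ⟨-, -, -, -, -, -, -, -, -, s10, -⟩ := hSPW M S P φ X hS hX
  have h1 := s10 (Fintype.card ι) (fun k => f ((Fintype.equivFin ι).symm k)) fun k => hf _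
  have h2 : (fun j => ∑ i, f i j) =
      fun j => ∑ k, f ((Fintype.equivFin ι).symm k) j := by
    funext j
    exact (Equiv.sum_comp (Fintype.equivFin ι).symm (fun i => f i j)).symm
  rw [h2]
  exact h1

end

theorem modq_aux {M : Type} [Field M] [NumberField M] [IsGalois ℚ M] {S : Finset ℕ} {P : PF S M}
    {φ : Ultrafilter ℕ} (hSLW : ST_SLW) (hSPW : ST_SPW) (hSVB : ST_SVB) (hHSL : ST_HSL)
    (hHBM : ST_HBM) (hINDK : ST_INDK) (hS : ∀ p ∈ S, p.Prime) {X : ℕ → ℝ}
    (hX : Tendsto X (φ : Filter ℕ) atTop) (T : Type) [Fintype T] (u ka kb : T → ℕ → M)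
    (hka : ∀ i, Slw P φ X (ka i)) (hkb : ∀ i, Slw P φ X (kb i))
    (husv : ∀ i, ∀ᶠ j in (φ : Filter ℕ), SV S (u i j)) (a b : ℕ → M) (A : ℝ)
    (hasum : ∀ᶠ j in (φ : Filter ℕ), ∑ i, ka i j * u i j = a j)
    (hbsum : ∀ᶠ j in (φ : Filter ℕ), ∑ i, kb i j * u i j = b j)
    (hb0 : ∀ᶠ j in (φ : Filter ℕ), b j ≠ 0)
    (hht : ∀ᶠ j in (φ : Filter ℕ), mulHeight₁ (a j / b j) ≤ X j ^ A) :
    ∃ a' b' : ℕ → M, SpM P φ X a' ∧ SpM P φ X b' ∧ (∀ᶠ j in (φ : Filter ℕ), b' j ≠ 0) ∧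
      ∀ᶠ j in (φ : Filter ℕ), a j / b j = a' j / b' j := by
  classical
  obtain ⟨-, -, -, -, -, svm, svi, -⟩ := hSVB M
  have hu' : ∀ᶠ j in (φ : Filter ℕ), ∀ i, SV S (u i j) := Filter.eventually_all.2 husv
  have hune : ∀ᶠ j in (φ : Filter ℕ), ∀ i, u i j ≠ 0 := hu'.mono fun j hj i => (hj i).1
  obtain ⟨s1, s2, -⟩ := hSLW M S P φ X hS hX
  obtain ⟨-, -, -, -, -, w6, w7, w8, -⟩ := hSPW M S P φ X hS hX
  -- the equivalence relation
  let st : Setoid T :=
    { r := fun i i' => ∃ A : ℝ, ∀ᶠ j in (φ : Filter ℕ), mulHeight₁ (u i j / u i' j) ≤ X j ^ A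
      iseqv := by
        refine ⟨fun i => ⟨0, ?_⟩, ?_, ?_⟩
        · filter_upwards [hune] with j hj
          rw [div_self (hj i), mulHeight₁_one, Real.rpow_zero]
        · rintro i i' ⟨B, hB⟩
          refine ⟨B, hB.mono fun j hj => ?_⟩
          rw [← mulHeight₁_inv, inv_div]
          exact hj
        · rintro i i' i'' ⟨B, hB⟩ ⟨B', hB'⟩
          refine ⟨B + B', ?_⟩
          filter_upwards [hB, hB', hune, hX.eventually_gt_atTop 0] with j h1 h2 h3 h4
          rw [← div_mul_div_cancel₀ (h3 i'), Real.rpow_add h4]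
          exact (mulHeight₁_mul_le _ _).trans
            (mul_le_mul h1 h2 (zero_le_one.trans (one_le_mulHeight₁ _)) (Real.rpow_nonneg h4.le _)) }
  have hst : ∀ i i' : T, (Quotient.mk st i = Quotient.mk st i') →
      ∃ A : ℝ, ∀ᶠ j in (φ : Filter ℕ), mulHeight₁ (u i j / u i' j) ≤ X j ^ A :=
    fun i i' h => Quotient.exact h
  have hstn : ∀ i i' : T, (Quotient.mk st i ≠ Quotient.mk st i') →
      ∀ A : ℝ, ∀ᶠ j in (φ : Filter ℕ), X j ^ A ≤ mulHeight₁ (u i j / u i' j) := by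
    intro i i' h A
    have h1 : ¬ ∀ᶠ j in (φ : Filter ℕ), mulHeight₁ (u i j / u i' j) ≤ X j ^ A := fun h1 =>
      h (Quotient.sound ⟨A, h1⟩)
    rw [← Ultrafilter.eventually_not] at h1
    exact h1.mono fun j hj => (not_le.1 hj).le
  -- the scale
  obtain ⟨Y, hY, hXY, hYH⟩ := scale_ex hX
    ((Finset.univ : Finset (T × T)).filter fun p => Quotient.mk st p.1 ≠ Quotient.mk st p.2)
    (fun p j => mulHeight₁ (u p.1 j / u p.2 j)) (by
      intro p hp A
      exact hstn p.1 p.2 (by simpa using hp) A)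
  obtain ⟨t1, t2, -, -, -, -, t7, -, -, -, t11, -⟩ := hSLW M S P φ Y hS hY
  have hsl : ∀ (z : ℕ → M) (A : ℝ), (∀ᶠ j in (φ : Filter ℕ), mulHeight₁ (z j) ≤ X j ^ A) →
      Slw P φ Y z := by
    intro z A hz
    rw [hHSL M S P φ Y hS hY z]
    intro ε hε
    filter_upwards [hz, hXY A ε hε] with j h1 h2
    exact h1.trans h2
  have hsl' : ∀ z : ℕ → M, Slw P φ X z → Slw P φ Y z := fun z hz =>
    hsl z 1 ((hHSL M S P φ X hS hX z).1 hz 1 one_pos)
  have hrs : ∀ i i' : T, Quotient.mk st i = Quotient.mk st i' →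
      Slw P φ Y (fun j => u i j / u i' j) := by
    intro i i' h
    obtain ⟨B, hB⟩ := hst i i' h
    exact hsl _ B hB
  have hrm : ∀ i i' : T, Quotient.mk st i = Quotient.mk st i' →
      MU P φ X (fun j => u i j / u i' j) := by
    intro i i' h
    obtain ⟨B, hB⟩ := hst i i' h
    refine ⟨?_, max B 1, lt_max_of_lt_right one_pos, ?_⟩
    · filter_upwards [hu'] with j hj
      rw [div_eq_mul_inv]
      exact svm _ _ _ (hj _) (svi _ _ (hj _))
    · filter_upwards [hB, hX.eventually_ge_atTop 1] with j h1 h2 v hv σ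
      exact (hHBM M S P hS _ v hv σ).trans
        (h1.trans (Real.rpow_le_rpow_of_exponent_le h2 (le_max_left _ _)))
  obtain ⟨ou, hou⟩ : ∃ ou : Quotient st → T, ∀ q, Quotient.mk st (ou q) = q :=
    ⟨Quotient.out, fun q => Quotient.out_eq q⟩
  obtain ⟨g, hg⟩ : ∃ g : (T → ℕ → M) → Quotient st → ℕ → M, g = fun c q j =>
      ∑ i, if Quotient.mk st i = q then c i j * (u i j / u (ou q) j) else 0 := ⟨_, rfl⟩
  have hgm : ∀ c : T → ℕ → M, (∀ i, Slw P φ X (c i)) → ∀ q, SpM P φ X (g c q) := by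
    intro c hc q
    rw [hg]
    refine spM_fsum hSPW hS hX _ fun i => ?_
    by_cases h : Quotient.mk st i = q
    · simp only [h, if_true]
      exact (w8 _ _ (w6 _ (hc i)) (w7 _ (hrm i (ou q) (by rw [hou, h])))).2
    · simp only [h, if_false]
      exact w6 _ (s1 0)
  have hgs : ∀ c : T → ℕ → M, (∀ i, Slw P φ X (c i)) → ∀ q, Slw P φ Y (g c q) := by
    intro c hc q
    rw [hg]
    refine (t11 T Finset.univ (fun i j =>
      if Quotient.mk st i = q then c i j * (u i j / u (ou q) j) else 0) fun i _ => ?_).1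
    by_cases h : Quotient.mk st i = q
    · simp only [h, if_true]
      exact (t2 _ _ (hsl' _ (hc i)) (hrs i (ou q) (by rw [hou, h]))).2
    · simp only [h, if_false]
      exact t1 0
  have hgu : ∀ c : T → ℕ → M, ∀ᶠ j in (φ : Filter ℕ),
      ∑ q, g c q j * u (ou q) j = ∑ i, c i j * u i j := by
    intro c
    filter_upwards [hune] with j hj
    have h1 : ∀ q, g c q j * u (ou q) j =
        ∑ i, if Quotient.mk st i = q then c i j * u i j else 0 := by
      intro q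
      rw [hg, Finset.sum_mul]
      refine Finset.sum_congr rfl fun i _ => ?_
      by_cases h : Quotient.mk st i = q
      · simp only [h, if_true]
        rw [mul_assoc, div_mul_cancel₀ _ (hj _)]
      · simp only [h, if_false, zero_mul]
    rw [Finset.sum_congr rfl fun q _ => h1 q, Finset.sum_comm]
    refine Finset.sum_congr rfl fun i _ => ?_
    rw [Finset.sum_ite_eq, if_pos (Finset.mem_univ _)]
  -- the coefficients
  obtain ⟨C, hC⟩ : ∃ C : Quotient st → ℕ → M, C = fun q j =>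
      a j / b j * g kb q j + (-1) * g ka q j := ⟨_, rfl⟩
  have hCs : ∀ q, Slw P φ Y (C q) := by
    intro q
    rw [hC]
    exact (t2 _ _ (t2 _ _ (hsl _ A hht) (hgs kb hkb q)).2 (t2 _ _ (t1 (-1)) (hgs ka hka q)).2).1
  have hCsum : ∀ᶠ j in (φ : Filter ℕ), ∑ q, C q j * u (ou q) j = 0 := by
    filter_upwards [hgu ka, hgu kb, hasum, hbsum, hb0] with j h1 h2 h3 h4 h5
    have h6 : ∑ q, C q j * u (ou q) j =
        a j / b j * ∑ q, g kb q j * u (ou q) j - ∑ q, g ka q j * u (ou q) j := by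
      rw [hC, Finset.mul_sum, ← Finset.sum_sub_distrib]
      exact Finset.sum_congr rfl fun q _ => by ring
    rw [h6, h1, h2, h3, h4, div_mul_cancel₀ _ h5, sub_self]
  have hC0 : ∀ q, ∀ᶠ j in (φ : Filter ℕ), C q j = 0 := by
    by_contra hcon
    push Not at hcon
    obtain ⟨q0, hq0⟩ := hcon
    have hdich : ∀ q, (∀ᶠ j in (φ : Filter ℕ), C q j ≠ 0) ∨ ∀ᶠ j in (φ : Filter ℕ), C q j = 0 := by
      intro q
      by_cases h : ∀ᶠ j in (φ : Filter ℕ), C q j = 0
      · exact Or.inr h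
      · exact Or.inl (Ultrafilter.eventually_not.2 h)
    have h1 := hINDK M S P φ Y {q : Quotient st // ∀ᶠ j in (φ : Filter ℕ), C q j ≠ 0}
      (fun q => C q.1) (fun q => u (ou q.1)) hS hY ⟨⟨q0, hq0⟩⟩ (fun q => hCs q.1)
      (fun q => q.2) (fun q => husv _) (by
        intro q q' hqq
        refine not_slw_self hHSL hS hY (hYH (ou q.1, ou q'.1) ?_)
        simp only [Finset.mem_filter, Finset.mem_univ, true_and, hou]
        exact fun h => hqq (Subtype.ext h))
    have h2 : ∀ᶠ j in (φ : Filter ℕ), ∀ q, (¬ ∀ᶠ j in (φ : Filter ℕ), C q j ≠ 0) → C q j = 0 := by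
      refine Filter.eventually_all.2 fun q => ?_
      rcases hdich q with h | h
      · exact Filter.Eventually.of_forall fun j hj => absurd h hj
      · exact h.mono fun j hj _ => hj
    obtain ⟨j, ⟨hj1, hj2⟩, hj3⟩ := ((h1.and h2).and hCsum).exists
    apply hj1
    refine Eq.trans ?_ hj3
    rw [← Finset.sum_filter_add_sum_filter_not Finset.univ
      (fun q => ∀ᶠ j in (φ : Filter ℕ), C q j ≠ 0) (fun q => C q j * u (ou q) j)]
    rw [Finset.sum_eq_zero (s := Finset.univ.filter fun q => ¬ ∀ᶠ j in (φ : Filter ℕ), C q j ≠ 0)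
      (fun q hq => by rw [hj2 q (Finset.mem_filter.1 hq).2, zero_mul]), add_zero]
    exact (Finset.sum_subtype (Finset.univ.filter fun q => ∀ᶠ j in (φ : Filter ℕ), C q j ≠ 0)
      (fun q => by simp only [Finset.mem_filter, Finset.mem_univ, true_and])
      (fun q : Quotient st => C q j * u (ou q) j)).symm
  have hex : ∀ᶠ j in (φ : Filter ℕ), ∃ q, g kb q j ≠ 0 := by
    filter_upwards [hgu kb, hbsum, hb0] with j h1 h2 h3
    by_contra h
    push Not at h
    apply h3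
    rw [← h2, ← h1]
    exact Finset.sum_eq_zero fun q _ => by rw [h q, zero_mul]
  rw [Ultrafilter.eventually_exists_iff] at hex
  obtain ⟨q, hq⟩ := hex
  refine ⟨g ka q, g kb q, hgm ka hka q, hgm kb hkb q, hq, ?_⟩
  filter_upwards [hC0 q, hq] with j h1 h2
  rw [eq_div_iff h2]
  rw [hC] at h1
  linear_combination h1

theorem MODQ (hSLW : ST_SLW) (hSPW : ST_SPW) (hSVB : ST_SVB) (hHSL : ST_HSL) (hHBM : ST_HBM)
    (hINDK : ST_INDK) : ST_MODQ := by
  intro M _ _ _ S P φ X a b A hS hX ha hb hb0 hht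
  obtain ⟨s1, -⟩ := hSLW M S P φ X hS hX
  obtain ⟨ta, ca, ua, hca, hua, hae⟩ := ha
  obtain ⟨tb, cb, ub, hcb, hub, hbe⟩ := hb
  refine modq_aux hSLW hSPW hSVB hHSL hHBM hINDK hS hX (Fin ta ⊕ Fin tb) (Sum.elim ua ub)
    (Sum.elim ca (fun _ _ => 0)) (Sum.elim (fun _ _ => 0) cb) ?_ ?_ ?_ a b A ?_ ?_ hb0 hht
  · rintro (i | i)
    · exact hca i
    · exact s1 0
  · rintro (i | i)
    · exact s1 0
    · exact hcb i
  · rintro (i | i)
    · exact hua i
    · exact hub i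
  · filter_upwards [hae] with j hj
    rw [Fintype.sum_sum_type]
    simpa using hj
  · filter_upwards [hbe] with j hj
    rw [Fintype.sum_sum_type]
    simpa using hj

end Pool.Agent.Helper9.LS5
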