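import Pool.Agent.Helper9.LS5.SheetR
import Pool.Agent.Helper54.LM.FINAL

/-!
Project LS5 (MP_9a3c31_nt), fifth sheet: concentration. The regulator of `m` independent points is
at least `c (1 + HK) ^ m ρ ^ ((2 m + 6) / 3)`, where `ρ` is the `ℓ²`-concentration of the
discriminant on the classes of places with the same component positions.
-/

set_option autoImplicit false

open Filter Topology NumberField

namespace Pool.Agent.Helper9.LS5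

open Pool.Agent.Helper42.LS Pool.Agent.Helper42.LK Pool.Agent.Helper54.LM

/-- sum of `w v * w v'` over the ordered pairs in `V` with `r v v'` -/
noncomputable def prs {ι : Type} (V : Finset ι) (w : ι → ℝ) (r : ι → ι → Prop) : ℝ :=
  open Classical in ∑ v ∈ V, ∑ v' ∈ V, if r v v' then w v * w v' else 0

/-- (SGN) pigeonhole: `prs V w (f = f)` is the sum over `c ∈ V.image f` of the squares of
`∑ b : β, ∑ v ∈ V with f v = c, σ v = b, w v`; `sq_sum_le_card_mul_sum_sq` -/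
def ST_SGN : Prop := ∀ (ι α β : Type) [Fintype β] (V : Finset ι) (w : ι → ℝ) (f : ι → α)
  (σ : ι → β), (∀ v ∈ V, 0 ≤ w v) →
  prs V w (fun v v' => f v = f v') ≤
    Fintype.card β * prs V w (fun v v' => f v = f v' ∧ σ v = σ v')

/-- (LSRM) second moment, equal atoms merged. From `ST_LSR` (same `c`, `C`): choose
`r : ι → ℕ` with `r v = r v'` iff `t v - t v' ∈ ℤ ^ m` for `v, v' ∈ V`, one `t' n` for each class;
`V' = V.image r`, `w' n = ∑ v ∈ V with r v = n, w v`; `B2` has period 1 -/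
def ST_LSRM : Prop := ∃ c C : ℝ, 0 < c ∧ 0 < C ∧ ∀ (m : ℕ) (S : Finset (Fin m → ℤ)) (ι : Type)
  (V : Finset ι) (w : ι → ℝ) (t : ι → Fin m → ℝ) (ρ : ℝ), (∀ v ∈ V, 0 ≤ w v) →
  0 < ∑ v ∈ V, w v → 0 < ρ →
  ρ * (∑ v ∈ V, w v) ^ 2 ≤ prs V w (fun v v' => ∀ i, ∃ n : ℤ, t v i = t v' i + n) →
  C ≤ ρ * S.card →
  ∃ a₁ ∈ S, ∃ a₂ ∈ S, ∃ b₁ ∈ S, ∃ b₂ ∈ S, a₁ + a₂ - b₁ - b₂ ≠ 0 ∧
    c * (ρ ^ (2 / 3 : ℝ) * ∑ v ∈ V, w v) ≤ ∑ v ∈ V, w v * B2 (pr (a₁ + a₂ - b₁ - b₂) (t v))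

/-- (CFIN) final arithmetic (LSRM, LBF). Write `L = ∑ w`. Large case `C₁ ≤ (1 + H) ρ ^ (2/3)`:
`ρ ≤ C₂`, so `H` is large, `(1 + H) / 4 ≤ L ≤ (1 + C₀) (1 + H)`, `κ ρ L ^ 2 ≤ prs`; LBF with
`T = c₁ ρ ^ (2/3) (1 + H)`; if `C ≤ κ ρ |S|`, LSRM gives `k = a₁ + a₂ - b₁ - b₂ ≠ 0` with
`qf G k ≤ 4 T` and `2 c₃ ρ ^ (2/3) (1 + H) - C₀ ≤ 144 * qf G k`, contradiction; so
`|S| < C / (κ ρ)` and `det G ≥ (c κ ρ / C) ^ 2 T ^ m`. Small case: the left side is at most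
`C₁ ^ (m + 3) (1 + H) ^ (-3)` and `gam m ≥ -3` -/
def ST_CFIN : Prop := ∀ (m : ℕ), 1 ≤ m → ∀ C₀ c₀ : ℝ, 1 ≤ C₀ → 0 < c₀ → ∃ c : ℝ, 0 < c ∧
  ∀ (G : Matrix (Fin m) (Fin m) ℝ) (ι : Type) (V : Finset ι) (w : ι → ℝ) (t : ι → Fin m → ℝ)
  (H ρ : ℝ), G.PosDef → 0 ≤ H → 0 ≤ ρ → (∀ v ∈ V, 0 ≤ w v) →
  H ≤ 2 * ∑ v ∈ V, w v + C₀ → ∑ v ∈ V, w v ≤ H + C₀ →
  ρ * (1 + H) ^ 2 ≤ C₀ * (1 + prs V w (fun v v' => ∀ i, ∃ n : ℤ, t v i = t v' i + n)) →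
  (∀ k : Fin m → ℤ, k ≠ 0 → ∑ v ∈ V, w v * B2 (pr k (t v)) - C₀ ≤ 144 * qf G k) →
  c₀ * (1 + H) ^ gam m ≤ G.det →
  c * (1 + H) ^ m * ρ ^ ((2 * (m : ℝ) + 6) / 3) ≤ G.det

/-- the archimedean part of `HK` -/
noncomputable def arw {K : Type} [Field K] [NumberField K] (A B : K) : ℝ :=
  ∑ w : InfinitePlace K, (w.mult : ℝ) * max 0 (Real.log (w (6912 * A ^ 3 / dsc A B)))

/-- (LMT3) `ST_LMT2` with all places identified: in the proof of `Helper66.LS5.LMT2` take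
`T = S` (all bad places and all places above 6), `wf`, `tf`, and `ti w i = 12 * τ w i` -/
def ST_LMT3 : Prop := ∀ (K : Type) [Field K] [NumberField K] (m : ℕ), ∃ C₀ : ℝ, 0 ≤ C₀ ∧
  ∀ A B : K, dsc A B ≠ 0 → ∀ (X Y : (Fin m → ℤ) → K) (e : (Fin m → ℤ) → ℝ),
  GLat (0 : K) A B X Y → (∀ k, k ≠ 0 → IsCanK (fun n : ℕ => X (n • k)) (e k)) →
  ∃ (T : Finset (FinitePlace K)) (wf : FinitePlace K → ℝ) (tf : FinitePlace K → Fin m → ℝ)
    (ti : InfinitePlace K → Fin m → ℝ),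
    (∀ v : FinitePlace K, v ∉ T → v 2 = 1 ∧ v 3 = 1 ∧ dl (fun z : K => v z) A B = 0) ∧
    (∀ v, 0 ≤ wf v) ∧ ∑ v ∈ T, |wf v - dl (fun z : K => v z) A B| ≤ C₀ ∧
    (∀ v : FinitePlace K, v 2 = 1 → v 3 = 1 → wf v = dl (fun z : K => v z) A B ∧
      ∀ i, Sg (tf v i) (tz (fun z : K => v z) A B (X (Pi.single i 1)))) ∧
    ∀ k : Fin m → ℤ, k ≠ 0 → ∑ v ∈ T, wf v * B2 (pr k (tf v)) +
      ∑ w : InfinitePlace K, (w.mult : ℝ) * max 0 (Real.log (w (6912 * A ^ 3 / dsc A B))) *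
        B2 (pr k (ti w)) - C₀ ≤ 144 * e k

/-- `v` and `v'` are the same place, or places not above 6 with the same component positions of
the points with `x`-coordinates `x i` (times 12, up to sign and integers) -/
def Sm {K : Type} [Field K] [NumberField K] (A B : K) {m : ℕ} (x : Fin m → K)
    (v v' : FinitePlace K) : Prop :=
  v = v' ∨ (v 2 = 1 ∧ v 3 = 1 ∧ v' 2 = 1 ∧ v' 3 = 1 ∧
    ∀ i, Sg (tz (fun z : K => v z) A B (x i)) (tz (fun z : K => v' z) A B (x i)))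

/-- the concentration of the discriminant -/
noncomputable def rho {K : Type} [Field K] [NumberField K] (A B : K) {m : ℕ} (x : Fin m → K)
    (T : Finset (FinitePlace K)) : ℝ :=
  (1 + arw A B ^ 2 + prs T (fun v => dl (fun z : K => v z) A B) (Sm A B x)) / (1 + HK A B) ^ 2

/-- (CONC) the theorem (LMT3, CFIN, SGN, LREG, KDF; `G` is positive definite as in
`Helper54.LM.LREG`). `ι = FinitePlace K ⊕ InfinitePlace K`, `V = T₀.disjSum univ`, `T₀` from LMT3.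
For `v` not above 6: `σ v i` = whether `tf v i = nd (tf v i) + integer` or `- nd + integer`;
`f v i = nd (tf v i)`; `Sg a b` implies `nd a = nd b`; so with `M = 2 ^ m`
`prs T dl Sm ≤ ∑ (v above 6) dl v ^ 2 + M * prs T₀ wf (tf v - tf v' ∈ ℤ ^ m)`, and
`dl v ^ 2 ≤ 2 * wf v ^ 2 + 2 * C₀ ^ 2`, `arw ^ 2 ≤ card * ∑ w, (..) ^ 2` -/
def ST_CONC : Prop := ∀ (K : Type) [Field K] [NumberField K] (m : ℕ), 1 ≤ m → ∃ c : ℝ, 0 < c ∧
  ∀ A B : K, dsc A B ≠ 0 → ∀ (X Y : (Fin m → ℤ) → K) (G : Matrix (Fin m) (Fin m) ℝ),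
  GLat (0 : K) A B X Y → G.IsSymm → (∀ k, k ≠ 0 → IsCanK (fun n : ℕ => X (n • k)) (qf G k)) →
  ∀ T : Finset (FinitePlace K), c * (1 + HK A B) ^ m *
    rho A B (fun i => X (Pi.single i 1)) T ^ ((2 * (m : ℝ) + 6) / 3) ≤ G.det

/-- (CMK) few multiplicative places (KDF, Cauchy-Schwarz). `T` = the bad places; `tz = 0` where
not `IsMul`, so the places of `T` not above 6 and not `IsMul` form one class; at most `mK` are
`IsMul`, at most `n₆` are above 6: `HK ≤ 2 * (arw + ∑ v ∈ T, dl v)` and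
`(arw + ∑ dl) ^ 2 ≤ (2 + n₆ + mK) * (arw ^ 2 + prs T dl Sm)` -/
def ST_CMK : Prop := ∀ (K : Type) [Field K] [NumberField K], ∃ C : ℝ, 0 < C ∧
  ∀ A B : K, dsc A B ≠ 0 → ∀ (m : ℕ) (x : Fin m → K), ∃ T : Finset (FinitePlace K),
    1 ≤ C * (1 + (mK A B : ℝ)) * rho A B x T

/-- (CPTS) the theorem on points (LGL, LCH, CONC, CMK, `FINAL_gram`, `FINAL_trace`, `FINAL_int` of
`Helper54.LM.FINAL`; `0 ≤ rho`) -/
def ST_CPTS : Prop := ∀ (K : Type) [Field K] [NumberField K] [DecidableEq K] (m : ℕ), 1 ≤ m →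
  ∃ c : ℝ, 0 < c ∧ ∀ A B : K, 4 * A ^ 3 + 27 * B ^ 2 ≠ 0 →
  ∀ P : Fin m → (ECK A B).toAffine.Point, Indep P →
  ∃ G : Matrix (Fin m) (Fin m) ℝ, IsGram P G ∧
    (∀ T : Finset (FinitePlace K),
      c * (1 + HK A B) ^ m * rho A B (fun i => xco (P i)) T ^ ((2 * (m : ℝ) + 6) / 3) ≤ G.det ∧
      ∀ S : Matrix (Fin m) (Fin m) ℤ, (S.map (fun z : ℤ => (z : ℝ))).PosDef →
        c * (1 + HK A B) * rho A B (fun i => xco (P i)) T ^ ((2 * (m : ℝ) + 6) / (3 * m)) ≤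
          ∑ i, ∑ j, (S i j : ℝ) * G i j) ∧
    c * (1 + HK A B) ^ m * (1 + (mK A B : ℝ)) ^ (-((2 * (m : ℝ) + 6) / 3)) ≤ G.det ∧
    ∀ S : Matrix (Fin m) (Fin m) ℤ, (S.map (fun z : ℤ => (z : ℝ))).PosDef →
      c * (1 + HK A B) * (1 + (mK A B : ℝ)) ^ (-((2 * (m : ℝ) + 6) / (3 * m))) ≤
        ∑ i, ∑ j, (S i j : ℝ) * G i j

end Pool.Agent.Helper9.LS5
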