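import Pool.Agent.Helper71.JN.SheetA
import Pool.Agent.Helper9.MTK.Sheet
import Pool.Agent.Helper42.LK.Defs

/-!
Project LS5 (MP_9a3c31_nt), second sheet: greatest common divisors of polynomials in moderate
S-units with slow coefficients. `F` is the field of slow elements.
-/

set_option autoImplicit false

open Filter NumberField

namespace Pool.Agent.Helper9.LS5

open Pool.Agent.Helper71.JN Pool.Agent.Helper70.SUB Pool.Agent.Helper77.SUBK
  Pool.Agent.Helper70.SUBL Pool.Agent.Helper70.SUBW Pool.Agent.Helper9.MTK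

/-! ## N1. Algebra -/

/-- (GCDA) the abstract gcd theorem (SSX or `D.ss`, RK, greedy bases) -/
def ST_GCDA : Prop := ∀ (F Ω : Type) [Field F] [Field Ω] [Algebra F Ω] (I : Type) [Fintype I]
  (r : ℕ) (D : SSF F Ω I r) (f g : MvPolynomial (Fin r) F) (d a b : Ω), f ≠ 0 → g ≠ 0 →
  IsRelPrime f g → a ∈ D.O → b ∈ D.O → D.ev f = d * a → D.ev g = d * b → ∏ i, D.nu i d ≤ 1

/-- (FAC) common factorisation of finitely many polynomials (unique factorisation) -/
def ST_FAC : Prop := ∀ (F : Type) [Field F] (r n : ℕ) (p : Fin n → MvPolynomial (Fin r) F),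
  (∀ i, p i ≠ 0) → ∃ (s : ℕ) (g : Fin s → MvPolynomial (Fin r) F) (a : Fin n → Fin s → ℕ)
    (c : Fin n → F), (∀ i, c i ≠ 0) ∧ (∀ j, g j ≠ 0) ∧ (∀ j j', j ≠ j' → IsRelPrime (g j) (g j')) ∧
    ∀ i, p i = MvPolynomial.C (c i) * ∏ j, g j ^ a i j

/-- (VAL) one place: `l i = - log |g_i|`, `u, v` the contributions of the slow factors,
`N = log |J|`, `z = - log |Z|`. At most one `l i` is larger than `E`. With
`D = 2 ∏ (a i ≠ 0) |a i|`, `m / D = 12 clamp (b i / (- a i), 0, 1 / 2)` for the large `l i` -/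
def ST_VAL : Prop := ∀ (s : ℕ) (a b : Fin s → ℤ), ∃ (D : ℕ) (C : ℝ), 1 ≤ D ∧ 0 ≤ C ∧
  ∀ (l : Fin s → ℝ) (u v E N z : ℝ), -N = u + ∑ i, a i * l i → z = v + ∑ i, b i * l i →
    0 < N → 0 ≤ E → |u| ≤ E → |v| ≤ E → (∀ i, -E ≤ l i) → (∀ i i', i ≠ i' → min (l i) (l i') ≤ E) →
    ∃ m : ℤ, |D * (12 * max 0 (min z (N / 2))) - m * N| ≤ C * E

/-- (DIR) Dirichlet's theorem on simultaneous approximation -/
def ST_DIR : Prop := ∀ (n Q : ℕ) (t : Fin n → ℝ), 1 ≤ Q → ∃ k : ℕ, 1 ≤ k ∧ k ≤ Q ^ n ∧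
  ∀ i, ∃ m : ℤ, |k * t i - m| ≤ 1 / (Q : ℝ)

/-! ## N2. Heights and finite places -/

/-- (BCH) finite places of an extension (ramification index times residue degree) -/
def ST_BCH : Prop := ∀ (K M : Type) [Field K] [NumberField K] [Field M] [NumberField M]
  (f : K →+* M) (v : FinitePlace K), ∃ (V : FinitePlace M) (κ : ℕ), 1 ≤ κ ∧
    ∀ x : K, V (f x) = v x ^ κ

/-- (HFP) sums over finite places and heights (Mathlib: `NumberField.logHeight₁_eq`) -/
def ST_HFP : Prop := ∀ (K : Type) [Field K] [NumberField K] (z : K) (T : Finset (FinitePlace K)),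
  ∑ V ∈ T, max 0 (Real.log (V z)) ≤ Height.logHeight₁ z ∧
  ∑ V ∈ T, |Real.log (V z)| ≤ 2 * Height.logHeight₁ z

/-- `V` is not above `S` -/
def Aw (S : Finset ℕ) {M : Type} [Field M] [NumberField M] (V : FinitePlace M) : Prop :=
  ∀ p ∈ S, V (p : M) = 1

/-- (SLS) slow elements: the sum of the local contributions is small (HFP, HSL) -/
def ST_SLS : Prop := ∀ (M : Type) [Field M] [NumberField M] [IsGalois ℚ M] (S : Finset ℕ)
  (P : PF S M) (φ : Ultrafilter ℕ) (X : ℕ → ℝ) (z : ℕ → M), (∀ p ∈ S, p.Prime) →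
  Tendsto X (φ : Filter ℕ) atTop → Slw P φ X z → ∀ ε : ℝ, 0 < ε → ∀ᶠ j in (φ : Filter ℕ),
    ∀ T : Finset (FinitePlace M), ∑ V ∈ T, |Real.log (V (z j))| ≤ ε * Real.log (X j)

/-- (POS) elements of `OS` are integral outside `S` up to small contributions (for `V` not above
`S` one has `V z ≤ 1 / V D`, and `∑ - log (V D) ≤ [M : ℚ] log D`, HFP) -/
def ST_POS : Prop := ∀ (M : Type) [Field M] [NumberField M] [IsGalois ℚ M] (S : Finset ℕ)
  (P : PF S M) (φ : Ultrafilter ℕ) (X : ℕ → ℝ) (z : ℕ → M), (∀ p ∈ S, p.Prime) →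
  Tendsto X (φ : Filter ℕ) atTop → OS P φ X z → ∀ ε : ℝ, 0 < ε → ∀ᶠ j in (φ : Filter ℕ),
    ∀ T : Finset (FinitePlace M), (∀ V ∈ T, Aw S V) →
      ∑ V ∈ T, max 0 (Real.log (V (z j))) ≤ ε * Real.log (X j)

/-- (GCDC) the gcd theorem for sequences. Otherwise (along `φ`) there are finite sets `T j` with
`∑ > δ log (X j)`. KMK (Minkowski) with `a V = F j` or `G j`, whichever is larger at `V`, for
`V ∈ T j` with both `< 1`, `a V = 1` else, `R = 1`, gives `d j ≠ 0` with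
`V (d j) ≤ max (V (F j)) (V (G j))`, sizes `≤ X ^ A`, and the product of `V (a V) / V (d j)` over
all `V` is bounded, so a fixed natural number `D` satisfies `V D ≤ V (d j) / V (a V)`:
`D * F j / d j`, `D * G j / d j` are in `OS` (POS language), as well as `d j`, and the product of
`nv v (σ (d j))` over `v ∈ plc S`, `σ` is at least `X j ^ δ` (norm of `d j`, its part prime to `S`);
GCDA with `d = gm φ d / D`. (KMK, GCDA, OSR, OMG, GALA) -/
def ST_GCDC : Prop := ∀ (M : Type) [Field M] [NumberField M] [IsGalois ℚ M] (S : Finset ℕ)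
  (P : PF S M) (φ : Ultrafilter ℕ) (X : ℕ → ℝ) (r : ℕ) (w : Fin r → ℕ → M)
  (D : SSF (Sl P φ X) (Om P φ X) (Pl S M) r) (f g : MvPolynomial (Fin r) (Sl P φ X))
  (F G : ℕ → M), (∀ p ∈ S, p.Prime) → Tendsto X (φ : Filter ℕ) atTop → (∀ k, MU P φ X (w k)) →
  IsD P φ X w D → f ≠ 0 → g ≠ 0 → IsRelPrime f g → gm φ F = ((D.ev f : Om P φ X) : UP M φ) →
  gm φ G = ((D.ev g : Om P φ X) : UP M φ) → ∀ ε : ℝ, 0 < ε → ∀ᶠ j in (φ : Filter ℕ),
    ∀ T : Finset (FinitePlace M), (∀ V ∈ T, Aw S V) →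
      ∑ V ∈ T, max 0 (min (-Real.log (V (F j))) (-Real.log (V (G j)))) ≤ ε * Real.log (X j)

/-! ## N3. Sparse quotients -/

/-- (MODQ) a sparse quotient of polynomial height is a quotient of sums of MODERATE units. Let
`u i` be all units in `a` and `b`, `i ~ i'` iff `u i / u i'` is moderate. If `h j` is the minimum of
`log mulHeight₁ (u i j / u i' j)` over all inequivalent pairs, then `h j / log (X j) → ∞`; in the
scale `Y = exp (sqrt (h * log X))` the sequence `z`, the slow `c i` and the moderate quotients are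
slow, the quotients of inequivalent units are not slow. `z b - a = 0`, grouped by classes; INDK
gives that the sum over every class vanishes; take a class where the part of `b` is not zero
(INDK, SLW, SPW, HSL) -/
def ST_MODQ : Prop := ∀ (M : Type) [Field M] [NumberField M] [IsGalois ℚ M] (S : Finset ℕ)
  (P : PF S M) (φ : Ultrafilter ℕ) (X : ℕ → ℝ) (a b : ℕ → M) (A : ℝ), (∀ p ∈ S, p.Prime) →
  Tendsto X (φ : Filter ℕ) atTop → Spa P φ X a → Spa P φ X b →
  (∀ᶠ j in (φ : Filter ℕ), b j ≠ 0) →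
  (∀ᶠ j in (φ : Filter ℕ), Height.mulHeight₁ (a j / b j) ≤ X j ^ A) →
  ∃ a' b' : ℕ → M, SpM P φ X a' ∧ SpM P φ X b' ∧ (∀ᶠ j in (φ : Filter ℕ), b' j ≠ 0) ∧
    ∀ᶠ j in (φ : Filter ℕ), a j / b j = a' j / b' j

/-- (REP) finitely many elements `SpM` are elements of `D.R` for a suitable structure `D`
(MONG for all units which occur, SSFX, RDX) -/
def ST_REP : Prop := ∀ (M : Type) [Field M] [NumberField M] [IsGalois ℚ M] (S : Finset ℕ)
  (P : PF S M) (φ : Ultrafilter ℕ) (X : ℕ → ℝ) (n : ℕ) (z : Fin n → ℕ → M), (∀ p ∈ S, p.Prime) →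
  Tendsto X (φ : Filter ℕ) atTop → (∀ i, SpM P φ X (z i)) →
  ∃ (r : ℕ) (w : Fin r → ℕ → M) (D : SSF (Sl P φ X) (Om P φ X) (Pl S M) r),
    (∀ k, MU P φ X (w k)) ∧ IndW P φ X w ∧ IsD P φ X w D ∧
    ∀ i, ∃ g ∈ D.R, gm φ (z i) = ((g : Om P φ X) : UP M φ)

/-! ## N4. The arithmetic statement -/

/-- component times `log q` of the pair `(J, Z)` at `V` -/
noncomputable def aV {M : Type} [Field M] [NumberField M] (V : FinitePlace M) (J Z : M) : ℝ :=
  open Classical in if Z = 0 then Real.log (V J) / 2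
    else max 0 (min (-Real.log (V Z)) (Real.log (V J) / 2))

/-- (ARI) (REP for the numerators and denominators of `J`, `Z`, K_form of RK, FAC for the four
polynomials, VAL at every `V` with `E` = the sum of `|log V (c)|`, `|log V (c')|`,
`max 0 (log V (g i))` and `max 0 (min (- log V (g i)) (- log V (g i')))`, SLS, POS, GCDC). If `Z = 0`
then `12 * aV = 6 * log V J`, take `m = 6 D` -/
def ST_ARI : Prop := ∀ (M : Type) [Field M] [NumberField M] [IsGalois ℚ M] (S : Finset ℕ)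
  (P : PF S M) (φ : Ultrafilter ℕ) (X : ℕ → ℝ) (a b a' b' : ℕ → M), (∀ p ∈ S, p.Prime) →
  Tendsto X (φ : Filter ℕ) atTop → SpM P φ X a → SpM P φ X b → SpM P φ X a' → SpM P φ X b' →
  (∀ᶠ j in (φ : Filter ℕ), b j ≠ 0) → (∀ᶠ j in (φ : Filter ℕ), b' j ≠ 0) →
  ∃ D : ℕ, 1 ≤ D ∧ ∀ ε : ℝ, 0 < ε → ∀ᶠ j in (φ : Filter ℕ),
    ∀ T : Finset (FinitePlace M), (∀ V ∈ T, Aw S V ∧ 0 < Real.log (V (a j / b j))) →
      ∃ m : FinitePlace M → ℤ, ∑ V ∈ T, |D * (12 * aV V (a j / b j) (a' j / b' j)) -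
        m V * Real.log (V (a j / b j))| ≤ ε * Real.log (X j)

end Pool.Agent.Helper9.LS5
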