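import Pool.Agent.Helper9.LS5.SheetE
import Pool.Agent.Helper9.LS5.SheetN

/-!
Project LS5 (MP_9a3c31_nt), third sheet: the final statement.
-/

set_option autoImplicit false

open Filter NumberField

namespace Pool.Agent.Helper9.LS5

open Pool.Agent.Helper71.JN Pool.Agent.Helper70.SUB Pool.Agent.Helper77.SUBK
  Pool.Agent.Helper70.SUBL Pool.Agent.Helper70.SUBW Pool.Agent.Helper9.MTK
  Pool.Agent.Helper42.LS Pool.Agent.Helper42.LK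

/-- quotients of two sums of at most `t` terms `c * g`, `g ∈ G`, `c` of height at most `h` -/
def Qt {K : Type} [Field K] [NumberField K] (G : Subgroup Kˣ) (t : ℕ) (h : ℝ) (z : K) : Prop :=
  ∃ (c c' : Fin t → K) (g g' : Fin t → Kˣ), (∀ i, g i ∈ G ∧ g' i ∈ G ∧
    Height.logHeight₁ (c i) ≤ h ∧ Height.logHeight₁ (c' i) ≤ h) ∧
    ∑ i, c' i * (g' i : K) ≠ 0 ∧ z * ∑ i, c' i * (g' i : K) = ∑ i, c i * (g i : K)

/-- (CRE) the contradiction. `C₀` from KMT2, `s` = its number of special places plus the number of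
`v` above `S`; DIR with `Q = 24` for `D * ts i` and `D * tz v` (`v` above `S`), so `k = D * k'`,
`k' ≤ 24 ^ s`, `B2 ≥ 1 / 8` there. For the other `v ∈ T`: `B2 = 1 / 6` if not `IsMul`; if `IsMul`,
with `V`, `κ` from BCH: `|D * (12 * al v) - m V * log (v J)| ≤ |D * (12 * aV V) - m V * log (V J)|`
and `dl v * B2 (k * tz v) ≥ dl v / 6 - k' * |..|` (as `B2 u ≥ 1 / 6 - |u - m|`). So
`(H - C₀) / 8 - 24 ^ s * ε * HK - C₀ ≤ 144 * k ^ 2 * e` (KMT2, DIR, BCH) -/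
def ST_CRE : Prop := ∀ (K M : Type) [Field K] [NumberField K] [Field M] [NumberField M]
  (f : K →+* M) (S : Finset ℕ) (φ : Ultrafilter ℕ) (A B : ℕ → K) (x y : ℕ → ℕ → K) (e : ℕ → ℝ)
  (D : ℕ), (∀ p ∈ S, p.Prime) →
  (∀ j, dsc (A j) (B j) ≠ 0 ∧ GSeq (0 : K) (A j) (B j) (x j) (y j) ∧ IsCanK (x j) (e j)) →
  Tendsto (fun j => HK (A j) (B j)) (φ : Filter ℕ) atTop →
  (∀ ε : ℝ, 0 < ε → ∀ᶠ j in (φ : Filter ℕ), e j ≤ ε * HK (A j) (B j)) → 1 ≤ D →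
  (∀ ε : ℝ, 0 < ε → ∀ᶠ j in (φ : Filter ℕ),
    ∀ T : Finset (FinitePlace M), (∀ V ∈ T, Aw S V ∧ 0 < Real.log (V (f (jK (A j) (B j))))) →
      ∃ m : FinitePlace M → ℤ, ∑ V ∈ T,
        |D * (12 * aV V (f (jK (A j) (B j))) (f (zz (A j) (B j) (x j 1)))) -
          m V * Real.log (V (f (jK (A j) (B j))))| ≤ ε * HK (A j) (B j)) → False

/-- (SPQ) sparse quotients as quotients of sequences `Spa` (HSL, HC, SLW) -/
def ST_SPQ : Prop := ∀ (K M : Type) [Field K] [NumberField K] [Field M] [NumberField M]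
  [IsGalois ℚ M] (f : K →+* M) (S : Finset ℕ) (P : PF S M) (φ : Ultrafilter ℕ) (X : ℕ → ℝ)
  (G : Subgroup Kˣ) (t : ℕ) (h : ℕ → ℝ) (z : ℕ → K), (∀ p ∈ S, p.Prime) →
  Tendsto X (φ : Filter ℕ) atTop → (∀ g ∈ G, SV S (f (g : K))) →
  (∀ ε : ℝ, 0 < ε → ∀ᶠ j in (φ : Filter ℕ), h j ≤ ε * Real.log (X j)) →
  (∀ᶠ j in (φ : Filter ℕ), Qt G t (h j) (z j)) →
  ∃ a b : ℕ → M, Spa P φ X a ∧ Spa P φ X b ∧ (∀ᶠ j in (φ : Filter ℕ), b j ≠ 0) ∧
    ∀ᶠ j in (φ : Filter ℕ), f (z j) = a j / b j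

/-- (SPC) closure properties of `Spa` (SLW, SPW) -/
def ST_SPC : Prop := ∀ (M : Type) [Field M] [NumberField M] [IsGalois ℚ M] (S : Finset ℕ)
  (P : PF S M) (φ : Ultrafilter ℕ) (X : ℕ → ℝ) (a b : ℕ → M) (c : M), (∀ p ∈ S, p.Prime) →
  Tendsto X (φ : Filter ℕ) atTop → Spa P φ X a → Spa P φ X b →
  Spa P φ X (fun j => a j + b j) ∧ Spa P φ X (fun j => c * a j)

/-- (FIN) the final theorem (KSM gives `HK → ∞` along a bad sequence with constants `1 / (n + 1)`;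
`X = exp HK`; if `A B = 0` eventually the hypothesis of CRE is trivial (`jK` is `0` or `1728`);
otherwise `jK = 6912 λ / (4 λ + 27)`, `λ = A ^ 3 / B ^ 2`, `zz = 3 + 2 μ`, `μ = A x / B`, SPQ, SPC,
heights `≤ HK` (`logHeight₁ jK ≤ HK`) and HTZ, HC, MODQ, ARI, CRE) -/
def ST_FIN : Prop := ∀ (K : Type) [Field K] [NumberField K] (G : Subgroup Kˣ) (t : ℕ), G.FG →
  ∃ c : ℝ, 0 < c ∧ ∀ A B : K, dsc A B ≠ 0 → ∀ (x y : ℕ → K) (e : ℝ), GSeq (0 : K) A B x y →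
    IsCanK x e → ∀ h : ℝ, 0 ≤ h → Qt G t h (A ^ 3 / B ^ 2) → Qt G t h (A * x 1 / B) →
    c * (1 + HK A B) ≤ e + h

end Pool.Agent.Helper9.LS5
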