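import Pool.Agent.Helper54.LM.Defs
import Pool.Agent.Helper9.LS5.SheetF

/-!
Project LS5 (MP_9a3c31_nt), fourth sheet: several sparse points. The regulator of `m` independent
points with sparse invariants, of height `O (1 + HK)`, is at least `c (1 + HK) ^ m`.
-/

set_option autoImplicit false

open Filter Topology NumberField

namespace Pool.Agent.Helper9.LS5

open Pool.Agent.Helper71.JN Pool.Agent.Helper70.SUB Pool.Agent.Helper77.SUBK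
  Pool.Agent.Helper70.SUBL Pool.Agent.Helper70.SUBW Pool.Agent.Helper9.MTK
  Pool.Agent.Helper42.LS Pool.Agent.Helper42.LK Pool.Agent.Helper54.LM

/-- equal up to sign and integers -/
def Sg (a b : ℝ) : Prop := ∃ n : ℤ, a = b + n ∨ a = -b + n

/-- (LPM2) `ST_LPM` at a place not above 6 with explicit components. Copy of
`Helper76.LM.LPM`: there `f k = alpK μ N (X k) = N * nd (pr k (a / (2 N)))` with
`X k = (x k - x0) * π`, and `alpK μ N (X k) = alpK μ N (zz A B (x k))` as in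
`Helper99.LS5.KPMX` (the two arguments have the same order) -/
def ST_LPM2 : Prop := ∀ (F : Type) [Field F] [CharZero F] (v : DV F) (N : ℕ), 1 ≤ N →
  v.ord 2 = 0 → v.ord 3 = 0 → ∀ A B : F, dsc A B ≠ 0 →
  v.ord (6912 * A ^ 3 / dsc A B) = -(N : ℤ) → ∀ (m : ℕ) (X Y : (Fin m → ℤ) → F),
  GLat (0 : F) A B X Y →
  ∃ (r : ℤ) (a : Fin m → ℤ),
    v.ord (16 * dsc A B) = N + 6 * r ∧
    (∀ k : Fin m → ℤ, k ≠ 0 →
      alpK v N (zz A B (X k)) = N * nd (pr k (fun i => (a i : ℝ) / (2 * N)))) ∧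
    ∀ k : Fin m → ℤ, k ≠ 0 → ∃ U : ℕ → ℝ,
    (∀ n : ℕ, 1 ≤ n → 4 * U n ≤ U (2 * n) + Real.log (v.nr (4 * cu A B (X (n • k))))) ∧
    (∃ C : ℝ, ∀ n : ℕ, 1 ≤ n → U n ≤ Real.log (max (v.nr (X (n • k))) 1) + C) ∧
    (∀ n : ℕ, 1 ≤ n → N * Real.log v.q *
      (B2 (n * pr k (fun i => (a i : ℝ) / (2 * N))) - 1 / 6) - r * Real.log v.q ≤ U n)

/-- (LLB2) `ST_LLB` with explicit components. If `IsMul` then `t i = 12 * (a i / (2 N))` and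
`tz = 12 * nd (a i / (2 N))` (LPM2 and the conversion of `Helper99.LS5.KLBX / KLB2`); if not
`IsMul` then `t = 0` and `tz = 0` (LPM2, LPM, KPG, KAD, KMN, LSC, LSQ, as `Helper76.LM.LLB`) -/
def ST_LLB2 : Prop := ∀ (F : Type) [Field F] [CharZero F] (v : DV F), v.ord 2 = 0 → v.ord 3 = 0 →
  ∀ A B : F, dsc A B ≠ 0 → ∀ (m : ℕ) (X Y : (Fin m → ℤ) → F), GLat (0 : F) A B X Y →
  ∃ t : Fin m → ℝ, 0 ≤ dl v.nr A B ∧
    (IsMul v.nr A B → A ≠ 0 ∧ B ≠ 0 ∧ 0 < Real.log (v.nr (jK A B)) ∧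
      dl v.nr A B = Real.log (v.nr (jK A B))) ∧
    (∀ i, Sg (t i) (tz v.nr A B (X (Pi.single i 1)))) ∧
    ∀ k : Fin m → ℤ, k ≠ 0 → ∃ U : ℕ → ℝ,
    (∀ n : ℕ, 1 ≤ n → 4 * U n ≤ U (2 * n) + Real.log (v.nr (4 * cu A B (X (n • k))))) ∧
    (∃ C : ℝ, ∀ n : ℕ, 1 ≤ n → U n ≤ Real.log (max (v.nr (X (n • k))) 1) + C) ∧
    (∀ n : ℕ, 1 ≤ n → dl v.nr A B * B2 (n * pr k t) + 1 / 6 * Real.log (v.nr (dsc A B)) ≤
      U (12 * n))

/-- (LMT2) master inequality for several points with explicit components (as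
`Helper11.LM.LMT` and `Helper99.LS5.KMT2`: LLB2, LLS, LCX, LSQ, LMAP, KGO, KPOT, KDF, KFP) -/
def ST_LMT2 : Prop := ∀ (K : Type) [Field K] [NumberField K] (m : ℕ), ∃ C₀ : ℝ, 0 ≤ C₀ ∧
  ∀ A B : K, dsc A B ≠ 0 → ∀ (X Y : (Fin m → ℤ) → K) (e : (Fin m → ℤ) → ℝ),
  GLat (0 : K) A B X Y → (∀ k, k ≠ 0 → IsCanK (fun n : ℕ => X (n • k)) (e k)) →
  ∃ H : ℝ, LD A B ≤ H ∧ H ≤ HK A B ∧ HK A B ≤ 2 * H ∧
  ∃ (n : ℕ) (ws : Fin n → ℝ) (ts : Fin n → Fin m → ℝ) (T : Finset (FinitePlace K))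
    (tv : FinitePlace K → Fin m → ℝ), (n : ℝ) ≤ C₀ ∧ (∀ i, 0 ≤ ws i) ∧
    (∀ v ∈ T, v 2 = 1 ∧ v 3 = 1 ∧ 0 ≤ dl (fun z : K => v z) A B ∧
      (IsMul (fun z : K => v z) A B → A ≠ 0 ∧ B ≠ 0 ∧ 0 < Real.log (v (jK A B)) ∧
        dl (fun z : K => v z) A B = Real.log (v (jK A B))) ∧
      ∀ i, Sg (tv v i) (tz (fun z : K => v z) A B (X (Pi.single i 1)))) ∧
    |∑ i, ws i + ∑ v ∈ T, dl (fun z : K => v z) A B - H| ≤ C₀ ∧
    ∀ k : Fin m → ℤ, k ≠ 0 → ∑ i, ws i * B2 (pr k (ts i)) + ∑ v ∈ T,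
      dl (fun z : K => v z) A B * B2 (pr k (tv v)) - C₀ ≤ 144 * e k

/-- (CREL) uniform lower bound for all integral combinations. As `Helper67.LS5.CRE`: fix `k`;
`s` = `⌊C₀⌋` + number of places above `S`; DIR with `Q = 24` for the numbers `D * pr k (ts i)` and
`D * pr k (tv v)` (`v` above `S`): `1 ≤ k' ≤ 24 ^ s`; LMT2 for the vector `(k' * D) • k`,
`e ((k' * D) • k) = (k' * D) ^ 2 * e k` (uniqueness of limits). For the other `v ∈ T` with `IsMul`: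
`|D * pr k (tv v) - integer| ≤ ∑ i, |k i| * |D * tz_i - m_i v|`, so the loss is at most
`24 ^ s * (∑ i, |k i|) * ε * HK`, which is negligible for a FIXED `k`. So `c₀` depends on `D`, `S`,
`K`, `m` only: `c₀ = 1 / (64 * 144 * (D * 24 ^ s) ^ 2)` -/
def ST_CREL : Prop := ∀ (K M : Type) [Field K] [NumberField K] [Field M] [NumberField M]
  (f : K →+* M) (S : Finset ℕ) (φ : Ultrafilter ℕ) (m : ℕ) (A B : ℕ → K)
  (X Y : ℕ → (Fin m → ℤ) → K) (e : ℕ → (Fin m → ℤ) → ℝ) (D : ℕ), (∀ p ∈ S, p.Prime) →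
  (∀ j, dsc (A j) (B j) ≠ 0 ∧ GLat (0 : K) (A j) (B j) (X j) (Y j) ∧
    ∀ k, k ≠ 0 → IsCanK (fun n : ℕ => X j (n • k)) (e j k)) →
  Tendsto (fun j => HK (A j) (B j)) (φ : Filter ℕ) atTop → 1 ≤ D →
  (∀ i : Fin m, ∀ ε : ℝ, 0 < ε → ∀ᶠ j in (φ : Filter ℕ),
    ∀ T : Finset (FinitePlace M), (∀ V ∈ T, Aw S V ∧ 0 < Real.log (V (f (jK (A j) (B j))))) →
      ∃ n : FinitePlace M → ℤ, ∑ V ∈ T,
        |D * (12 * aV V (f (jK (A j) (B j))) (f (zz (A j) (B j) (X j (Pi.single i 1))))) -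
          n V * Real.log (V (f (jK (A j) (B j))))| ≤ ε * HK (A j) (B j)) →
  ∃ c₀ : ℝ, 0 < c₀ ∧ ∀ k : Fin m → ℤ, k ≠ 0 → ∀ᶠ j in (φ : Filter ℕ),
    c₀ * HK (A j) (B j) ≤ e j k

/-- (LIMD) linear algebra. `G j` is positive semidefinite (`Helper54.LM.LREG_psd`), so its entries
are at most `M * H j`; `G j / H j` converges along `φ` to a positive semidefinite `G∞` with
`c ≤ qf G∞ k` for all `k ≠ 0`; if `G∞ *ᵥ x = 0` with `x ≠ 0`, DIR gives `n ≥ 1` and `k ≠ 0` with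
`|k - n x| ≤ 1 / Q`, `qf G∞ k = (k - n x)ᵀ G∞ (k - n x)` small; so `G∞` is positive definite, its
determinant is positive, and `det` is continuous -/
def ST_LIMD : Prop := ∀ (m : ℕ) (φ : Ultrafilter ℕ) (G : ℕ → Matrix (Fin m) (Fin m) ℝ)
  (H : ℕ → ℝ) (c M : ℝ), 0 < c → Tendsto H (φ : Filter ℕ) atTop →
  (∀ᶠ j in (φ : Filter ℕ), (G j).IsSymm ∧ ∀ k : Fin m → ℤ, 0 ≤ qf (G j) k) →
  (∀ i : Fin m, ∀ᶠ j in (φ : Filter ℕ), G j i i ≤ M * H j) →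
  (∀ k : Fin m → ℤ, k ≠ 0 → ∀ᶠ j in (φ : Filter ℕ), c * H j ≤ qf (G j) k) →
  ∃ c₁ : ℝ, 0 < c₁ ∧ ∀ᶠ j in (φ : Filter ℕ), c₁ * H j ^ m ≤ (G j).det

/-- (FINL) as `Helper27.LS5.FIN`. A bad sequence with constants `1 / (n + 1)`; `HK → ∞` by LREG;
for every `i`: HTZ for `n ↦ X (n • single i 1)` (GSeq by LSQ, `e = qf G (single i 1) = G i i`),
SPQ, SPC, MODQ, ARI give `D i`; `D = ∏ i, D i`; CREL and LIMD contradict
`det < (1 + HK) ^ m / (n + 1)` -/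
def ST_FINL : Prop := ∀ (K : Type) [Field K] [NumberField K] (G : Subgroup Kˣ) (t m : ℕ) (M : ℝ),
  G.FG → 1 ≤ m → ∃ c : ℝ, 0 < c ∧ ∀ A B : K, dsc A B ≠ 0 →
  ∀ (X Y : (Fin m → ℤ) → K) (R : Matrix (Fin m) (Fin m) ℝ), GLat (0 : K) A B X Y → R.IsSymm →
    (∀ k, k ≠ 0 → IsCanK (fun n : ℕ => X (n • k)) (qf R k)) →
    ∀ h : ℝ, 0 ≤ h → h ≤ c * (1 + HK A B) → (∀ i, R i i ≤ M * (1 + HK A B)) →
    Qt G t h (A ^ 3 / B ^ 2) → (∀ i, Qt G t h (A * X (Pi.single i 1) / B)) →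
    c * (1 + HK A B) ^ m ≤ R.det

/-- the `x`-coordinate of a point, `0` at the origin -/
def xco {K : Type} [Field K] {A B : K} : (ECK A B).toAffine.Point → K
  | .zero => 0
  | .some x _ _ => x

/-- `P` is an independent family of points -/
def Ind {K : Type} [Field K] [DecidableEq K] {A B : K} {m : ℕ}
    (P : Fin m → (ECK A B).toAffine.Point) : Prop :=
  ∀ k : Fin m → ℤ, k ≠ 0 → ∑ i, k i • P i ≠ 0

/-- `R` is the Gram matrix of the points `P` for the canonical height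
`lim h (x (2 ^ n Q)) / 4 ^ n` -/
def IsReg {K : Type} [Field K] [NumberField K] [DecidableEq K] {A B : K} {m : ℕ}
    (P : Fin m → (ECK A B).toAffine.Point) (R : Matrix (Fin m) (Fin m) ℝ) : Prop :=
  R.IsSymm ∧ ∀ k : Fin m → ℤ, Tendsto (fun n : ℕ => hxK (2 ^ n • ∑ i, k i • P i) / 4 ^ n) atTop
    (𝓝 (∑ i, ∑ j, (k i : ℝ) * (k j : ℝ) * R i j))

/-- (REGS) the theorem on points (LGL, LCH, FINL, LREG_psd, FINAL_gram, FINAL_trace, FINAL_int of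
`Helper54.LM.FINAL`) -/
def ST_REGS : Prop := ∀ (K : Type) [Field K] [NumberField K] [DecidableEq K] (G : Subgroup Kˣ)
  (t m : ℕ) (M : ℝ), G.FG → 1 ≤ m → ∃ c : ℝ, 0 < c ∧ ∀ A B : K, 4 * A ^ 3 + 27 * B ^ 2 ≠ 0 →
  ∀ P : Fin m → (ECK A B).toAffine.Point, Ind P →
  ∃ R : Matrix (Fin m) (Fin m) ℝ, IsReg P R ∧
    ∀ h : ℝ, 0 ≤ h → h ≤ c * (1 + HK A B) → (∀ i, R i i ≤ M * (1 + HK A B)) →
      Qt G t h (A ^ 3 / B ^ 2) → (∀ i, Qt G t h (A * xco (P i) / B)) →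
      c * (1 + HK A B) ^ m ≤ R.det ∧
      ∀ S : Matrix (Fin m) (Fin m) ℤ, (S.map (fun z : ℤ => (z : ℝ))).PosDef →
        c * (1 + HK A B) ≤ ∑ i, ∑ j, (S i j : ℝ) * R i j

end Pool.Agent.Helper9.LS5
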