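import Pool.Agent.Helper54.LM.All
import Pool.Agent.Helper9.LS5.SheetC
import Pool.Agent.Helper99.LS5.LPM2
import Pool.Agent.Helper99.LS5.LLB2
import Pool.Agent.Helper66.LS5.LMT3
import Pool.Agent.Helper66.LS5.CONC
import Pool.Agent.Helper12.LS5.CFIN
import Pool.Agent.Helper47.LS5.LSRM
import Pool.Agent.Helper67.LS5.CMK
import Pool.Agent.Helper27.LS5.CPTS
import Pool.Agent.Helper54.LM3.CONC3

/-! Assembly of sheet C of project LS5: concentration. -/

set_option autoImplicit false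

namespace Pool.Agent.Helper9.LS5

open Pool.Agent.Helper42.LS Pool.Agent.Helper42.LK Pool.Agent.Helper54.LM

theorem c_lb2 : ST_LLB2 :=
  Pool.Agent.Helper99.LS5.LLB2 (Pool.Agent.Helper99.LS5.LPM2 lmall_FT) lmall_PM st_LSC st_LSQ

theorem c_mt3 : ST_LMT3 :=
  Pool.Agent.Helper66.LS5.LMT3 c_lb2 lmall_LS lmall_CX st_LSQ st_LMAP st_KGO st_KPOT kall_DF st_KFP

theorem c_cfin : ST_CFIN :=
  CFIN (LSRM (st_LSR st_LBC st_LBK)) lmall_BF

theorem c_conc : ST_CONC :=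
  Pool.Agent.Helper66.LS5.CONC c_mt3 c_cfin SGN lmall_REG kall_DF

theorem c_conc3 : Pool.Agent.Helper54.LM3.ST_CONC3 :=
  Pool.Agent.Helper54.LM3.CONC3 c_mt3
    (Pool.Agent.Helper54.LM3.CFIN3 (Pool.Agent.Helper54.LM3.LSRM3 Pool.Agent.Helper54.LM3.LSR3)
      lmall_BF) SGN lmall_REG kall_DF

/-- concentration, the theorem on points, both exponents -/
theorem c_ptm : Pool.Agent.Helper54.LM3.ST_CPTM :=
  Pool.Agent.Helper54.LM3.CPTM st_LGL lmall_CH (Pool.Agent.Helper54.LM3.CONCM c_conc c_conc3)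
    (Pool.Agent.Helper67.LS5.CMK kall_DF) kall_DF

end Pool.Agent.Helper9.LS5
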