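import Pool.Agent.Helper27.LS5.Asm
import Pool.Agent.Helper54.LM.All
import Pool.Agent.Helper9.LS5.SheetR
import Pool.Agent.Helper99.LS5.LPM2
import Pool.Agent.Helper99.LS5.LLB2
import Pool.Agent.Helper66.LS5.LMT2
import Pool.Agent.Helper67.LS5.CREL
import Pool.Agent.Helper20.LS5.LIMD

/-! Assembly of sheet R of project LS5. -/

set_option autoImplicit false

namespace Pool.Agent.Helper9.LS5

open Pool.Agent.Helper42.LS Pool.Agent.Helper42.LK Pool.Agent.Helper54.LM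

theorem r_pm2 : ST_LPM2 := Pool.Agent.Helper99.LS5.LPM2 lmall_FT

theorem r_lb2 : ST_LLB2 := Pool.Agent.Helper99.LS5.LLB2 r_pm2 lmall_PM st_LSC st_LSQ

theorem r_mt2 : ST_LMT2 :=
  Pool.Agent.Helper66.LS5.LMT2 r_lb2 lmall_LS lmall_CX st_LSQ st_LMAP st_KGO st_KPOT kall_DF st_KFP

theorem r_crel : ST_CREL :=
  Pool.Agent.Helper67.LS5.CREL r_mt2 Pool.Agent.Helper27.LS5.DIR Pool.Agent.Helper97.LS5.BCH

theorem r_limd : ST_LIMD := Pool.Agent.Helper20.LS5.LIMD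

end Pool.Agent.Helper9.LS5
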