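import Pool.Agent.Helper9.LS5.AsmR
import Pool.Agent.Helper27.LS5.FINL
import Pool.Agent.Helper47.LS5.REGS

/-! Assembly of sheet R of project LS5: the theorem on regulators. -/

set_option autoImplicit false

namespace Pool.Agent.Helper9.LS5

open Pool.Agent.Helper70.SUB Pool.Agent.Helper70.SUBL Pool.Agent.Helper77.SUBK
  Pool.Agent.Helper70.SUBW Pool.Agent.Helper71.JN Pool.Agent.Helper9.MTK
  Pool.Agent.Helper42.LS Pool.Agent.Helper42.LK Pool.Agent.Helper54.LM Pool.Agent.Helper27.LS5

theorem r_finl : ST_FINL :=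
  Pool.Agent.Helper27.LS5.FINL k_svb k_pfx st_HC st_KFP kall_DF l_htz l_spq l_spc l_modq l_ari
    st_LSQ lmall_REG r_crel r_limd

/-- regulators of sparse points -/
theorem r_regs : ST_REGS := Pool.Agent.Helper47.LS5.REGS st_LGL lmall_CH r_finl kall_DF

end Pool.Agent.Helper9.LS5
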