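import Pool.Agent.Helper42.LK.All
import Pool.Agent.Helper9.LS5.SheetF

/-! Project LS5: the sequence of multiples of an affine point. -/

set_option autoImplicit false

open Filter Topology NumberField

namespace Pool.Agent.Helper9.LS5

open Pool.Agent.Helper42.LS Pool.Agent.Helper42.LK

theorem pts {K : Type} [Field K] [NumberField K] [DecidableEq K] (A B : K)
    (hD : 4 * A ^ 3 + 27 * B ^ 2 ≠ 0) (a b : K) (hab : (ECK A B).toAffine.Nonsingular a b)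
    (hP : ∀ n : ℕ, 0 < n → n • WeierstrassCurve.Affine.Point.some a b hab ≠ 0) :
    ∃ (x y : ℕ → K) (e : ℝ), GSeq (0 : K) A B x y ∧ IsCanK x e ∧ x 1 = a ∧
      Tendsto (fun n : ℕ => hxK (2 ^ n • WeierstrassCurve.Affine.Point.some a b hab) / 4 ^ n) atTop
        (𝓝 e) := by
  obtain ⟨x, y, hg, hxy⟩ := st_KGL K A B (WeierstrassCurve.Affine.Point.some a b hab) hP
  obtain ⟨C, hC⟩ := kall_CH K A B hD
  obtain ⟨e, he, -⟩ := hC x y hg
  refine ⟨x, y, e, hg, he, ?_, ?_⟩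
  · obtain ⟨h, hh⟩ := hxy 1 le_rfl
    rw [one_smul] at hh
    injection hh with h1 h2
    exact h1.symm
  · have h1 := he 1 le_rfl
    simp only [one_mul, Nat.cast_one, one_pow] at h1
    refine h1.congr (fun n => ?_)
    obtain ⟨h, hh⟩ := hxy (2 ^ n) (Nat.one_le_two_pow)
    rw [hh]
    rfl

theorem main_of (hFIN : ST_FIN) (K : Type) [Field K] [NumberField K] [DecidableEq K]
    (G : Subgroup Kˣ) (hG : G.FG) (t : ℕ) :
    ∃ c : ℝ, 0 < c ∧ ∀ A B : K, 4 * A ^ 3 + 27 * B ^ 2 ≠ 0 →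
    ∀ (x y : K) (hxy : (ECK A B).toAffine.Nonsingular x y),
    (∀ n : ℕ, 0 < n → n • WeierstrassCurve.Affine.Point.some x y hxy ≠ 0) →
    ∃ e : ℝ, Tendsto (fun n : ℕ =>
        hxK (2 ^ n • WeierstrassCurve.Affine.Point.some x y hxy) / 4 ^ n) atTop (𝓝 e) ∧
      ∀ h : ℝ, 0 ≤ h → Qt G t h (A ^ 3 / B ^ 2) → Qt G t h (A * x / B) →
        c * (1 + HK A B) ≤ e + h := by
  obtain ⟨c, hc, hF⟩ := hFIN K G t hG
  refine ⟨c, hc, ?_⟩
  intro A B hD a b hab hP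
  obtain ⟨x, y, e, hg, he, hx, ht⟩ := pts A B hD a b hab hP
  refine ⟨e, ht, ?_⟩
  intro h hh h1 h2
  exact hF A B hD x y e hg he h hh h1 (by rw [hx]; exact h2)

end Pool.Agent.Helper9.LS5
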