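import Pool.Agent.Helper42.LK.Defs

/-!
Project LS5 (MP_9a3c31_nt), first sheet: elliptic curves. The master inequality of the LK project
with explicit components at the finite places not above `6`.
-/

set_option autoImplicit false

open Filter Topology NumberField

namespace Pool.Agent.Helper9.LS5

open Pool.Agent.Helper42.LS Pool.Agent.Helper42.LK

/-- the `j`-invariant -/
def jK {F : Type} [Field F] (A B : F) : F := 6912 * A ^ 3 / (4 * A ^ 3 + 27 * B ^ 2)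

/-- `- 3` times the normalised distance of `x` from the approximate node `- 3 B / (2 A)` -/
def zz {F : Type} [Field F] (A B x : F) : F := 3 + 2 * A * x / B

/-- component of the point, times `log q` -/
noncomputable def al {F : Type} [Field F] (N : F → ℝ) (A B x : F) : ℝ :=
  open Classical in if zz A B x = 0 then Real.log (N (jK A B)) / 2
    else max 0 (min (-Real.log (N (zz A B x))) (Real.log (N (jK A B)) / 2))

/-- the parameter of `12 P` on the Tate curve (up to sign and integers) -/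
noncomputable def tz {F : Type} [Field F] (N : F → ℝ) (A B x : F) : ℝ :=
  open Classical in if IsMul N A B then 12 * al N A B x / Real.log (N (jK A B)) else 0

/-- (KPM2) as `ST_KPM` at a place not above 6, the component is explicit: in the proof
`X 1 = (x 1 + 3 B / (2 A)) π` has the same order as `zz A B (x 1)` -/
def ST_KPM2 : Prop := ∀ (F : Type) [Field F] [CharZero F] (v : DV F) (N : ℕ), 1 ≤ N →
  v.ord 2 = 0 → v.ord 3 = 0 → ∀ A B : F, dsc A B ≠ 0 →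
  v.ord (6912 * A ^ 3 / dsc A B) = -(N : ℤ) → ∀ x y : ℕ → F, GSeq (0 : F) A B x y →
  ∃ (r : ℤ) (U : ℕ → ℝ),
    v.ord (16 * dsc A B) = N + 6 * r ∧
    (∀ k : ℕ, 1 ≤ k → 4 * U k ≤ U (2 * k) + Real.log (v.nr (4 * cu A B (x k)))) ∧
    (∃ C : ℝ, ∀ k : ℕ, 1 ≤ k → U k ≤ Real.log (max (v.nr (x k)) 1) + C) ∧
    (∀ k : ℕ, 1 ≤ k → N * Real.log v.q * (B2 (k * (alpK v N (zz A B (x 1)) / N)) - 1 / 6) -
      r * Real.log v.q ≤ U k)

/-- (KLB2) as `ST_KLB` with the explicit parameter `tz` (KPM2, KPM, KPG, KAD, KMN, KSC; `IsMul`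
implies that the minimal equation is multiplicative, `zz` and `jK` are invariant) -/
def ST_KLB2 : Prop := ∀ (F : Type) [Field F] [CharZero F] (v : DV F), v.ord 2 = 0 → v.ord 3 = 0 →
  ∀ A B : F, dsc A B ≠ 0 → ∀ x y : ℕ → F, GSeq (0 : F) A B x y →
  ∃ U : ℕ → ℝ, 0 ≤ dl v.nr A B ∧
    (IsMul v.nr A B → A ≠ 0 ∧ B ≠ 0 ∧ 0 < Real.log (v.nr (jK A B)) ∧
      dl v.nr A B = Real.log (v.nr (jK A B))) ∧
    (∀ k : ℕ, 1 ≤ k → 4 * U k ≤ U (2 * k) + Real.log (v.nr (4 * cu A B (x k)))) ∧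
    (∃ C : ℝ, ∀ k : ℕ, 1 ≤ k → U k ≤ Real.log (max (v.nr (x k)) 1) + C) ∧
    (∀ k : ℕ, 1 ≤ k → dl v.nr A B * B2 (k * tz v.nr A B (x 1)) +
      1 / 6 * Real.log (v.nr (dsc A B)) ≤ U (12 * k))

/-- (KMT2) the master inequality with explicit components (KLB2, and KLS, KGO, CX, KPOT, KDF, KFP
as in `Helper42.LK.st_KMT`): `n` special places (above 6 or infinite) with arbitrary `ts`, a finite
set `T` of finite places not above 6 -/
def ST_KMT2 : Prop := ∀ (K : Type) [Field K] [NumberField K], ∃ C₀ : ℝ, 0 ≤ C₀ ∧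
  ∀ A B : K, dsc A B ≠ 0 → ∀ (x y : ℕ → K) (e : ℝ), GSeq (0 : K) A B x y → IsCanK x e →
  ∃ H : ℝ, LD A B ≤ H ∧ H ≤ HK A B ∧ HK A B ≤ 2 * H ∧
  ∃ (n : ℕ) (ws ts : Fin n → ℝ) (T : Finset (FinitePlace K)), (n : ℝ) ≤ C₀ ∧ (∀ i, 0 ≤ ws i) ∧
    (∀ v ∈ T, v 2 = 1 ∧ v 3 = 1 ∧ 0 ≤ dl (fun z : K => v z) A B ∧
      (IsMul (fun z : K => v z) A B → A ≠ 0 ∧ B ≠ 0 ∧ 0 < Real.log (v (jK A B)) ∧
        dl (fun z : K => v z) A B = Real.log (v (jK A B)))) ∧
    |∑ i, ws i + ∑ v ∈ T, dl (fun z : K => v z) A B - H| ≤ C₀ ∧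
    ∀ k : ℕ, 1 ≤ k → ∑ i, ws i * B2 (k * ts i) + ∑ v ∈ T, dl (fun z : K => v z) A B *
      B2 (k * tz (fun z : K => v z) A B (x 1)) - C₀ ≤ 144 * (k : ℝ) ^ 2 * e

/-- (ZIM) uniform comparison of the canonical height with the height: from
`h (x (2 Q)) ≥ 4 h (x Q) - C (1 + h A + h B)` by telescoping. With
`F = x ^ 4 - 2 A x ^ 2 - 8 B x + A ^ 2`, `G = 4 (x ^ 3 + A x + B)`, `D = 4 A ^ 3 + 27 B ^ 2`:
`(3 x ^ 2 + 4 A) F - (3 x ^ 3 - 5 A x - 27 B) G / 4 = D`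
and a second identity with `D x ^ 7` (Silverman, AEC VIII.4.3), so at every place
`max |F| |G| ≥ |D| max |x| 1 ^ 4 / (c max |A| 1 ^ 5 max |B| 1 ^ 5)`; the product formula for `D` -/
def ST_ZIM : Prop := ∀ (K : Type) [Field K] [NumberField K], ∃ C : ℝ, 0 ≤ C ∧
  ∀ A B : K, dsc A B ≠ 0 → ∀ (x y : ℕ → K) (e : ℝ), GSeq (0 : K) A B x y → IsCanK x e →
  Height.logHeight₁ (x 1) ≤ e + C * (1 + Height.logHeight₁ A + Height.logHeight₁ B)

/-- (HTZ) the height of `zz` (ZIM for the reduced equation of KRM, KSC) -/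
def ST_HTZ : Prop := ∀ (K : Type) [Field K] [NumberField K], ∃ C : ℝ, 0 ≤ C ∧
  ∀ A B : K, dsc A B ≠ 0 → B ≠ 0 → ∀ (x y : ℕ → K) (e : ℝ), GSeq (0 : K) A B x y →
    IsCanK x e → Height.logHeight₁ (zz A B (x 1)) ≤ C * (1 + HK A B + e)

end Pool.Agent.Helper9.LS5
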